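import Pool.Agent.SPD.Defs

set_option autoImplicit false

namespace Pool.Agent.SPD

open Polynomial

variable {K : Type*} [Field K] [CharZero K] {σ : Type*} [Fintype σ] [DecidableEq σ]

private theorem ser_der (a b : K) :
    PowerSeries.derivative K (gam a b) = PowerSeries.mk (fun k => a * b ^ k) := by
  ext n
  rw [PowerSeries.coeff_derivative, gam, PowerSeries.coeff_mk, PowerSeries.coeff_mk, Nat.add_sub_cancel]
  have h : ((n : K) + 1) ≠ 0 := by exact_mod_cast Nat.succ_ne_zero n
  rw [Nat.cast_add, Nat.cast_one, div_mul_cancel₀ _ h]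

omit [CharZero K] in
private theorem ser_geo (a b : K) :
    ((1 - C b * X : K[X]) : PowerSeries K) * PowerSeries.mk (fun k => a * b ^ k) = ((C a : K[X]) : PowerSeries K) := by
  rw [Polynomial.coe_sub, Polynomial.coe_one, Polynomial.coe_mul, Polynomial.coe_C, Polynomial.coe_X,
    Polynomial.coe_C]
  ext n
  rw [sub_mul, one_mul, map_sub, mul_assoc, PowerSeries.coeff_C_mul, PowerSeries.coeff_mk, PowerSeries.coeff_C]
  rcases n with _ | n
  · rw [PowerSeries.coeff_zero_X_mul, mul_zero, sub_zero, pow_zero, mul_one, if_pos rfl]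
  · rw [PowerSeries.coeff_succ_X_mul, PowerSeries.coeff_mk, if_neg (Nat.succ_ne_zero n), pow_succ]
    ring

/- PLAN.  `d/dt gam a b = ∑ a b^k t^k` (`PowerSeries.coeff_derivative`, char 0), and
`(1 - b t) * mk (fun k => a b^k) = C a` (coefficients); then split off the factor `i` of
`PP b` (`Finset.mul_prod_erase`). -/
theorem PP_mul_gam (a b : σ → K) (i : σ) :
    (PP b : PowerSeries K) * PowerSeries.derivative K (gam (a i) (b i)) =
      (GG a b i : PowerSeries K) := by
  have h : PP b = (1 - C (b i) * X) * ∏ j ∈ Finset.univ.erase i, (1 - C (b j) * X) := by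
    unfold PP
    exact (Finset.mul_prod_erase Finset.univ (fun j => 1 - C (b j) * X) (Finset.mem_univ i)).symm
  rw [ser_der, h, mul_comm (1 - C (b i) * X), Polynomial.coe_mul, mul_assoc, ser_geo, GG, Polynomial.coe_mul,
    mul_comm]

/- PLAN.  `MvPolynomial.induction_on f`: constants: both sides `0`; sums; `p * X i`:
`MvPolynomial.pderiv_mul`, `pderiv_X`, Leibniz for `PowerSeries.derivative`, `PP_mul_gam`. -/
theorem evK_deriv (a b : σ → K) (f : MvPolynomial σ K) :
    (PP b : PowerSeries K) * PowerSeries.derivative K (evK a b f) =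
      ∑ i, (GG a b i : PowerSeries K) * evK a b (MvPolynomial.pderiv i f) := by
  induction f using MvPolynomial.induction_on with
  | C r =>
    have h1 : evK a b (MvPolynomial.C r) = algebraMap K (PowerSeries K) r := by
      unfold evK
      exact MvPolynomial.aeval_C _ r
    rw [h1, Derivation.map_algebraMap, mul_zero]
    refine (Finset.sum_eq_zero fun i _ => ?_).symm
    rw [MvPolynomial.pderiv_C, map_zero, mul_zero]
  | add p q hp hq =>
    rw [map_add, map_add, mul_add, hp, hq, ← Finset.sum_add_distrib]
    refine Finset.sum_congr rfl fun i _ => ?_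
    rw [map_add, map_add, mul_add]
  | mul_X p j hp =>
    have h1 : evK a b (MvPolynomial.X j) = gam (a j) (b j) := by
      unfold evK
      exact MvPolynomial.aeval_X _ j
    rw [map_mul, h1, Derivation.leibniz, smul_eq_mul, smul_eq_mul, mul_add]
    have h2 : (PP b : PowerSeries K) * (evK a b p * PowerSeries.derivative K (gam (a j) (b j))) =
        evK a b p * (GG a b j : PowerSeries K) := by
      rw [← PP_mul_gam a b j]
      ring
    have h3 : (PP b : PowerSeries K) * (gam (a j) (b j) * PowerSeries.derivative K (evK a b p)) =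
        gam (a j) (b j) * ∑ i, (GG a b i : PowerSeries K) * evK a b (MvPolynomial.pderiv i p) := by
      rw [← hp]
      ring
    rw [h2, h3]
    have h4 : ∀ i, (GG a b i : PowerSeries K) * evK a b (MvPolynomial.pderiv i (p * MvPolynomial.X j)) =
        (if i = j then evK a b p * (GG a b j : PowerSeries K) else 0) +
          gam (a j) (b j) * ((GG a b i : PowerSeries K) * evK a b (MvPolynomial.pderiv i p)) := by
      intro i
      rw [MvPolynomial.pderiv_mul, map_add, map_mul, map_mul, h1, MvPolynomial.pderiv_X]
      by_cases hij : i = j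
      · subst hij
        rw [if_pos rfl, Pi.single_eq_same, map_one]
        ring
      · rw [if_neg hij, Pi.single_eq_of_ne (Ne.symm hij), map_zero]
        ring
    rw [Finset.sum_congr rfl (fun i _ => h4 i), Finset.sum_add_distrib, Finset.sum_ite_eq' Finset.univ j,
      if_pos (Finset.mem_univ j), ← Finset.mul_sum]

end Pool.Agent.SPD
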