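import Pool.Agent.SPD.Est
import Pool.Agent.SPD.Ser

set_option autoImplicit false

namespace Pool.Agent.SPD

open Polynomial

variable {K : Type*} [Field K] [CharZero K] {σ : Type*} [Fintype σ] [DecidableEq σ]

omit [CharZero K] [Fintype σ] [DecidableEq σ] in
private theorem ev_sum (a b : σ → K) {s : ℕ} (y : Fin s → K) (p : Fin s → MvPolynomial σ K) :
    ∑ j, PowerSeries.C (y j) * evK a b (p j) = evK a b (∑ j, y j • p j) := by
  rw [map_sum]
  refine Finset.sum_congr rfl fun j _ => ?_
  rw [map_smul, PowerSeries.smul_eq_C_mul]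

omit [CharZero K] [Fintype σ] [DecidableEq σ] in
private theorem coeff_sum_smul {s : ℕ} (y : Fin s → K) (p : Fin s → MvPolynomial σ K)
    (ν : σ →₀ ℕ) :
    MvPolynomial.coeff ν (∑ j, y j • p j) = ∑ j, y j * MvPolynomial.coeff ν (p j) := by
  rw [MvPolynomial.coeff_sum]
  refine Finset.sum_congr rfl fun j _ => ?_
  rw [MvPolynomial.coeff_smul, smul_eq_mul]

omit [CharZero K] [Fintype σ] [DecidableEq σ] in
private theorem repr_sum {V : Submodule K (MvPolynomial σ K)} {s : ℕ}
    (v : Module.Basis (Fin s) K V) (g : V) :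
    ∑ j, v.repr g j • (v j : MvPolynomial σ K) = (g : MvPolynomial σ K) := by
  have h := congrArg (fun x : V => (x : MvPolynomial σ K)) (v.sum_repr g)
  simp only [AddSubmonoidClass.coe_finsetSum, Submodule.coe_smul] at h
  exact h

/-- the zero estimate for a space of polynomials closed under partial derivatives -/
theorem order_space (a b : σ → K) (ha : ∀ i, a i ≠ 0) (hb : ∀ i, b i ≠ 0)
    (hinj : Function.Injective b) (V : Submodule K (MvPolynomial σ K)) [FiniteDimensional K V]
    (hV : ∀ g ∈ V, ∀ i, MvPolynomial.pderiv i g ∈ V) (f : MvPolynomial σ K) (hf : f ∈ V)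
    (hf0 : f ≠ 0) (M : ℕ)
    (hM : (Module.finrank K V - 1) +
      ∑ k ∈ Finset.range (Module.finrank K V), k * (Fintype.card σ - 1) ≤ M) :
    ¬ (PowerSeries.X : PowerSeries K) ^ (M + 1) ∣ evK a b f := by
  obtain ⟨v⟩ : Nonempty (Module.Basis (Fin (Module.finrank K V)) K V) := ⟨Module.finBasis K V⟩
  have hf' : evK a b f = ∑ j, PowerSeries.C (v.repr ⟨f, hf⟩ j) * evK a b (v j : MvPolynomial σ K) := by
    rw [ev_sum, repr_sum v ⟨f, hf⟩]
  rw [hf']
  refine order_abs a b ha hb hinj (I := σ →₀ ℕ) (fun ν => ν.degree)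
    (fun i ν => ν + Finsupp.single i 1) (fun i ν => (ν i : K) + 1)
    (fun ν j => MvPolynomial.coeff ν (v j : MvPolynomial σ K))
    (fun i j l => v.repr ⟨MvPolynomial.pderiv i (v j : MvPolynomial σ K), hV _ (v j).2 i⟩ l)
    ?_ ?_ ?_ ?_ (Finset.univ.biUnion fun j => (v j : MvPolynomial σ K).support) ?_ ?_
    (fun j => evK a b (v j : MvPolynomial σ K)) ?_ ?_ (v.repr ⟨f, hf⟩) ?_ M hM
  · intro i ν
    show (ν + Finsupp.single i 1).degree = ν.degree + 1
    rw [map_add, Finsupp.degree_single]
  · intro μ hμ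
    have h1 : μ ≠ 0 := by
      rintro rfl
      exact hμ (map_zero _)
    obtain ⟨i, hi⟩ := Finsupp.ne_iff.1 h1
    refine ⟨i, μ - Finsupp.single i 1, ?_, ?_⟩
    · show μ - Finsupp.single i 1 + Finsupp.single i 1 = μ
      refine tsub_add_cancel_of_le ?_
      rw [Finsupp.single_le_iff]
      exact Nat.one_le_iff_ne_zero.2 hi
    · exact Nat.cast_add_one_ne_zero _
  · intro ν ν' h h'
    rw [(Finsupp.degree_eq_zero_iff ν).1 h, (Finsupp.degree_eq_zero_iff ν').1 h']
  · intro i ν j
    show ∑ l, v.repr ⟨MvPolynomial.pderiv i (v j : MvPolynomial σ K), hV _ (v j).2 i⟩ l *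
      MvPolynomial.coeff ν (v l : MvPolynomial σ K) = _
    rw [← coeff_sum_smul, repr_sum v ⟨MvPolynomial.pderiv i (v j : MvPolynomial σ K), hV _ (v j).2 i⟩,
      MvPolynomial.coeff_pderiv, mul_comm]
  · intro ν hν
    funext j
    rw [Finset.mem_biUnion] at hν
    push Not at hν
    exact MvPolynomial.notMem_support_iff.1 (hν j (Finset.mem_univ j))
  · intro y hy
    have h1 : ∑ j, y j • v j = 0 := by
      apply Subtype.ext
      rw [AddSubmonoidClass.coe_finsetSum]
      ext ν
      simp only [Submodule.coe_smul]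
      rw [coeff_sum_smul, hy ν]
      simp
    funext j
    exact Fintype.linearIndependent_iff.1 v.linearIndependent y h1 j
  · intro j
    show (PP b : PowerSeries K) * PowerSeries.derivative K (evK a b (v j : MvPolynomial σ K)) = _
    rw [evK_deriv]
    refine Finset.sum_congr rfl fun i _ => ?_
    rw [ev_sum, repr_sum v ⟨MvPolynomial.pderiv i (v j : MvPolynomial σ K), hV _ (v j).2 i⟩]
  · intro e h1 h2
    rw [ev_sum]
    have h3 : ∑ j, e j • (v j : MvPolynomial σ K) = 1 := by
      ext ν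
      rw [coeff_sum_smul, MvPolynomial.coeff_one]
      by_cases hν : ν = 0
      · rw [if_pos hν.symm]
        exact h2 ν (by rw [hν]; exact map_zero _)
      · rw [if_neg fun h => hν h.symm]
        exact h1 ν fun h => hν ((Finsupp.degree_eq_zero_iff ν).1 h)
    rw [h3, map_one]
  · intro h
    apply hf0
    have h1 := repr_sum v ⟨f, hf⟩
    rw [h] at h1
    simpa using h1.symm

end Pool.Agent.SPD
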