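import Pool.Agent.SPD.Defs

set_option autoImplicit false

namespace Pool.Agent.SPD

open Polynomial

variable {K : Type*} [Field K] [CharZero K] {σ : Type*} [Fintype σ] [DecidableEq σ]

omit [CharZero K] [Fintype σ] [DecidableEq σ] in
theorem coeff_gamT (M : ℕ) (a b : K) (k : ℕ) :
    (gamT M a b).coeff k = if k ≤ M then a * b ^ (k - 1) / (k : K) else 0 := by
  unfold gamT
  rw [Polynomial.finsetSum_coeff]
  simp only [Polynomial.coeff_C_mul_X_pow]
  by_cases h : k ≤ M
  · rw [if_pos h, Finset.sum_eq_single k]
    · simp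
    · intro j _ hj
      rw [if_neg (fun h2 => hj h2.symm)]
    · intro h2
      exact absurd (Finset.mem_range.mpr (by omega)) h2
  · rw [if_neg h]
    refine Finset.sum_eq_zero fun j hj => ?_
    rw [if_neg]
    rintro rfl
    exact h (by have := Finset.mem_range.mp hj; omega)

omit [CharZero K] [Fintype σ] [DecidableEq σ] in
theorem dvd_gam_sub (M : ℕ) (a b : K) :
    (PowerSeries.X : PowerSeries K) ^ (M + 1) ∣
      gam a b - ((gamT M a b : K[X]) : PowerSeries K) := by
  rw [PowerSeries.X_pow_dvd_iff]
  intro m hm
  rw [map_sub, Polynomial.coeff_coe, coeff_gamT, if_pos (by omega)]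
  simp [gam]

omit [CharZero K] [Fintype σ] [DecidableEq σ] in
/- PLAN.  `X^(M+1)` divides `gam a b - gamT M a b` (coefficients), hence also
`evK a b f - (aeval gamT f : K⟦X⟧)`: in the quotient ring `K⟦X⟧ ⧸ span {X^(M+1)}` both
substitutions agree (`MvPolynomial.aeval` and ring homs; `Ideal.Quotient.eq_zero_iff_mem`,
`Ideal.mem_span_singleton`).  If `aeval gamT f = 0`, then `X^(M+1) ∣ evK a b f`. -/
theorem aeval_gamT_ne_zero (a b : σ → K) (f : MvPolynomial σ K) (M : ℕ)
    (h : ¬ (PowerSeries.X : PowerSeries K) ^ (M + 1) ∣ evK a b f) :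
    MvPolynomial.aeval (fun i => gamT M (a i) (b i)) f ≠ 0 := by
  intro h0
  apply h
  have h1 : ∀ g : MvPolynomial σ K, (PowerSeries.X : PowerSeries K) ^ (M + 1) ∣
      evK a b g - ((MvPolynomial.aeval (fun i => gamT M (a i) (b i)) g : K[X]) :
        PowerSeries K) := by
    intro g
    induction g using MvPolynomial.induction_on with
    | C c =>
      have : evK a b (MvPolynomial.C c) - ((MvPolynomial.aeval
          (fun i => gamT M (a i) (b i)) (MvPolynomial.C c) : K[X]) : PowerSeries K) = 0 := by
        simp only [evK, MvPolynomial.aeval_C]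
        rw [Polynomial.algebraMap_eq, Polynomial.coe_C, PowerSeries.algebraMap_eq, sub_self]
      rw [this]
      exact dvd_zero _
    | add p q hp hq =>
      have : evK a b (p + q) - ((MvPolynomial.aeval
          (fun i => gamT M (a i) (b i)) (p + q) : K[X]) : PowerSeries K) =
          (evK a b p - ((MvPolynomial.aeval
          (fun i => gamT M (a i) (b i)) p : K[X]) : PowerSeries K)) +
          (evK a b q - ((MvPolynomial.aeval
          (fun i => gamT M (a i) (b i)) q : K[X]) : PowerSeries K)) := by
        rw [map_add, map_add, Polynomial.coe_add]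
        ring
      rw [this]
      exact dvd_add hp hq
    | mul_X p i hp =>
      have : evK a b (p * MvPolynomial.X i) - ((MvPolynomial.aeval
          (fun i => gamT M (a i) (b i)) (p * MvPolynomial.X i) : K[X]) : PowerSeries K) =
          (evK a b p - ((MvPolynomial.aeval
          (fun i => gamT M (a i) (b i)) p : K[X]) : PowerSeries K)) * gam (a i) (b i) +
          ((MvPolynomial.aeval
          (fun i => gamT M (a i) (b i)) p : K[X]) : PowerSeries K) *
          (gam (a i) (b i) - ((gamT M (a i) (b i) : K[X]) : PowerSeries K)) := by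
        rw [map_mul, map_mul, Polynomial.coe_mul]
        have h2 : evK a b (MvPolynomial.X i) = gam (a i) (b i) := by
          simp [evK]
        have h3 : MvPolynomial.aeval (fun i => gamT M (a i) (b i))
            (MvPolynomial.X i : MvPolynomial σ K) = gamT M (a i) (b i) := by
          simp
        rw [h2, h3]
        ring
      rw [this]
      exact dvd_add (Dvd.dvd.mul_right hp _) (Dvd.dvd.mul_left (dvd_gam_sub M _ _) _)
  have h2 := h1 f
  rw [h0, Polynomial.coe_zero, sub_zero] at h2
  exact h2

omit [Fintype σ] [DecidableEq σ] in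
/- PLAN.  Let `p = MvPolynomial.aeval (fun i => gamT M (a i) (b i)) f ≠ 0`;
`MvPolynomial.aeval_natDegree_le` gives `p.natDegree ≤ d * M` (`natDegree (gamT M a b) ≤ M`);
if `p` vanishes at all `m ≤ d * M` (distinct in `K`, char 0) then `p = 0`
(`Polynomial.eq_zero_of_natDegree_lt_card_of_eval_eq_zero'` with `Finset.range (d*M+1)` mapped to
`K`).  `p.eval m = MvPolynomial.eval (fun i => (gamT M (a i) (b i)).eval m) f`. -/
theorem exists_point (a b : σ → K) (f : MvPolynomial σ K) (d M : ℕ) (hd : f.totalDegree ≤ d)
    (h : MvPolynomial.aeval (fun i => gamT M (a i) (b i)) f ≠ 0) :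
    ∃ m : ℕ, m ≤ d * M ∧ MvPolynomial.eval (fun i => (gamT M (a i) (b i)).eval (m : K)) f ≠ 0 := by
  classical
  set p : K[X] := MvPolynomial.aeval (fun i => gamT M (a i) (b i)) f with hp
  have hdeg : p.natDegree ≤ d * M := by
    rw [hp]
    refine (MvPolynomial.aeval_natDegree_le (m := d) f hd
      (fun i => gamT M (a i) (b i)) (n := M) ?_)
    intro i
    rw [Polynomial.natDegree_le_iff_coeff_eq_zero]
    intro k hk
    rw [coeff_gamT, if_neg (by omega)]
  by_contra hcon
  push Not at hcon
  apply h
  refine Polynomial.eq_zero_of_natDegree_lt_card_of_eval_eq_zero' p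
    ((Finset.range (d * M + 1)).map ⟨fun m : ℕ => (m : K), Nat.cast_injective⟩) ?_ ?_
  · intro x hx
    rw [Finset.mem_map] at hx
    obtain ⟨m, hm, rfl⟩ := hx
    have h1 := hcon m (by have := Finset.mem_range.mp hm; omega)
    have h2 : (Polynomial.evalRingHom (m : K)) p =
        MvPolynomial.eval (fun i => (gamT M (a i) (b i)).eval (m : K)) f := by
      have hc : (Polynomial.evalRingHom (m : K)).comp (algebraMap K K[X]) = RingHom.id K := by
        refine RingHom.ext fun x => ?_
        simp
      rw [hp, MvPolynomial.aeval_def, MvPolynomial.hom_eval₂, hc]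
      rfl
    simpa using h2.trans h1
  · rw [Finset.card_map, Finset.card_range]
    omega

end Pool.Agent.SPD
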