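import Pool.Agent.SPD.DSp

/-! The dimension of the derivative space is lower semicontinuous: polynomials of small border
complexity. -/

set_option autoImplicit false

namespace Pool.Agent.SPD

open Polynomial

variable {K : Type*} [Field K] {σ : Type*}

/-- Vectors over `K[X]` which are linearly independent at `X = 0` are linearly independent. -/
theorem li_lift {s : ℕ} (v : Fin s → MvPolynomial σ K[X])
    (h : LinearIndependent K (fun j => MvPolynomial.map (evalRingHom (0 : K)) (v j))) :
    LinearIndependent K[X] v := by
  rw [Fintype.linearIndependent_iff] at h ⊢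
  have key : ∀ n : ℕ, ∀ c : Fin s → K[X], ∑ j, c j • v j = 0 → ∀ j, (X : K[X]) ^ n ∣ c j := by
    intro n
    induction n with
    | zero => intro c _ j; exact ⟨c j, by rw [pow_zero, one_mul]⟩
    | succ n ih =>
      intro c hc
      have h0 : ∀ j, eval 0 (c j) = 0 := by
        refine h (fun j => eval 0 (c j)) ?_
        have := congrArg (MvPolynomial.map (evalRingHom (0 : K))) hc
        rw [map_sum, map_zero] at this
        rw [← this]
        refine Finset.sum_congr rfl fun j _ => ?_
        rw [MvPolynomial.smul_eq_C_mul, MvPolynomial.smul_eq_C_mul, map_mul, MvPolynomial.map_C]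
        rfl
      have h1 : ∀ j, ∃ d : K[X], c j = X * d := by
        intro j
        have : (X : K[X]) ∣ c j := by
          rw [Polynomial.X_dvd_iff, Polynomial.coeff_zero_eq_eval_zero]
          exact h0 j
        exact this
      choose d hd using h1
      have h2 : ∑ j, d j • v j = 0 := by
        have h3 : (X : K[X]) • ∑ j, d j • v j = 0 := by
          rw [Finset.smul_sum, ← hc]
          refine Finset.sum_congr rfl fun j _ => ?_
          rw [hd j, smul_smul]
        exact (smul_eq_zero.1 h3).resolve_left X_ne_zero
      intro j
      rw [hd j, pow_succ, mul_comm]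
      exact mul_dvd_mul_left X (ih d h2 j)
  intro c hc j
  by_contra hne
  have h1 := key ((c j).natDegree + 1) c hc j
  have h2 := Polynomial.natDegree_le_of_dvd h1 hne
  rw [Polynomial.natDegree_X_pow] at h2
  omega

theorem map_foldr {R S : Type*} [CommRing R] [CommRing S] (φ : R →+* S) (l : List σ)
    (f : MvPolynomial σ R) :
    MvPolynomial.map φ (l.foldr (fun i g => MvPolynomial.pderiv i g) f) =
      l.foldr (fun i g => MvPolynomial.pderiv i g) (MvPolynomial.map φ f) := by
  induction l with
  | nil => rfl
  | cons i l ih =>
    rw [List.foldr_cons, List.foldr_cons, ← MvPolynomial.pderiv_map, ih]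

theorem finrank_border [Finite σ] (F : MvPolynomial σ K[X]) :
    Module.finrank K (derivSpace (MvPolynomial.map (evalRingHom (0 : K)) F)) ≤
      Module.finrank (FractionRing K[X]) (derivSpace
        (MvPolynomial.map (algebraMap K[X] (FractionRing K[X])) F)) := by
  classical
  set f := MvPolynomial.map (evalRingHom (0 : K)) F with hf
  have : Module.Finite K (Submodule.span K
      (Set.range fun l : List σ => l.foldr (fun i g => MvPolynomial.pderiv i g) f)) :=
    derivSpace_finite f
  obtain ⟨u, hu, -, hli⟩ := Submodule.exists_fun_fin_finrank_span_eq K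
    (Set.range fun l : List σ => l.foldr (fun i g => MvPolynomial.pderiv i g) f)
  choose l hl using hu
  generalize hs0 : Module.finrank K (Submodule.span K
      (Set.range fun l : List σ => l.foldr (fun i g => MvPolynomial.pderiv i g) f)) = s at *
  have hs : Module.finrank K (derivSpace f) = s := hs0
  rw [hs]
  clear hs0
  set v : Fin s → MvPolynomial σ K[X] :=
    fun j => (l j).foldr (fun i g => MvPolynomial.pderiv i g) F with hv
  have hvu : (fun j => MvPolynomial.map (evalRingHom (0 : K)) (v j)) = u := by
    funext j
    rw [hv]
    simp only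
    rw [map_foldr, ← hf]
    exact hl j
  have hv1 : LinearIndependent K[X] v := li_lift v (by rw [hvu]; exact hli)
  let L := FractionRing K[X]
  let φ : MvPolynomial σ K[X] →ₗ[K[X]] MvPolynomial σ L :=
    { toFun := MvPolynomial.map (algebraMap K[X] L)
      map_add' := fun x y => map_add _ x y
      map_smul' := fun c x => by
        rw [MvPolynomial.smul_eq_C_mul, map_mul, MvPolynomial.map_C, RingHom.id_apply,
          ← MvPolynomial.smul_eq_C_mul, algebraMap_smul] }
  have hφ : LinearMap.ker φ = ⊥ := by
    rw [LinearMap.ker_eq_bot]
    exact MvPolynomial.map_injective _ (IsFractionRing.injective K[X] L)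
  have hv2 : LinearIndependent K[X] (φ ∘ v) := hv1.map' φ hφ
  have hv3 : LinearIndependent L (φ ∘ v) :=
    (LinearIndependent.iff_fractionRing K[X] L).1 hv2
  have hmem : ∀ j, (φ ∘ v) j ∈ derivSpace (MvPolynomial.map (algebraMap K[X] L) F) := by
    intro j
    refine Submodule.subset_span ⟨l j, ?_⟩
    simp only
    rw [← map_foldr]
    rfl
  have hv4 : LinearIndependent L
      (fun j => (⟨(φ ∘ v) j, hmem j⟩ : derivSpace (MvPolynomial.map (algebraMap K[X] L) F))) := by
    apply LinearIndependent.of_comp (Submodule.subtype _)
    exact hv3
  have := hv4.fintype_card_le_finrank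
  rw [Fintype.card_fin] at this
  exact this

end Pool.Agent.SPD
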