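import Mathlib

set_option autoImplicit false

namespace Pool.Agent.SPD

open Polynomial

/- PLAN.  `Matrix.det_apply'` or `Matrix.det_apply`: sum over permutations;
`Polynomial.natDegree_sum_le_of_forall_le`; each term is `sign * ∏ i, A (π i) i`
(`Polynomial.natDegree_prod_le`, sum of degrees `≤ ∑ i, w (π i) = ∑ k, w k`,
`Equiv.sum_comp`). -/
theorem natDegree_det_le {R : Type*} [CommRing R] {r : ℕ} (A : Matrix (Fin r) (Fin r) R[X])
    (w : Fin r → ℕ) (h : ∀ k i, (A k i).natDegree ≤ w k) :
    A.det.natDegree ≤ ∑ k, w k := by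
  rw [Matrix.det_apply]
  refine Polynomial.natDegree_sum_le_of_forall_le _ _ ?_
  intro π _
  refine (Polynomial.natDegree_smul_le _ _).trans ?_
  refine (Polynomial.natDegree_prod_le _ _).trans ?_
  calc ∑ i, (A (π i) i).natDegree ≤ ∑ i, w (π i) := Finset.sum_le_sum fun i _ => h _ _
    _ = ∑ k, w k := Equiv.sum_comp π w

end Pool.Agent.SPD
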