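import Pool.Agent.SPD.Defs

/-! The space spanned by all iterated partial derivatives of a polynomial. -/

set_option autoImplicit false

namespace Pool.Agent.SPD

variable {K : Type*} [Field K] {σ : Type*}

/-- The space spanned by the partial derivatives of all orders of `f` (order `0` included). -/
noncomputable def derivSpace (f : MvPolynomial σ K) : Submodule K (MvPolynomial σ K) :=
  Submodule.span K (Set.range fun l : List σ => l.foldr (fun i g => MvPolynomial.pderiv i g) f)

theorem mem_derivSpace (f : MvPolynomial σ K) : f ∈ derivSpace f :=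
  Submodule.subset_span ⟨[], rfl⟩

theorem pderiv_mem_derivSpace (f g : MvPolynomial σ K) (hg : g ∈ derivSpace f) (i : σ) :
    MvPolynomial.pderiv i g ∈ derivSpace f := by
  unfold derivSpace at hg ⊢
  refine Submodule.span_induction (p := fun g _ => MvPolynomial.pderiv i g ∈
    Submodule.span K (Set.range fun l : List σ => l.foldr (fun i g => MvPolynomial.pderiv i g) f))
    ?_ ?_ ?_ ?_ hg
  · rintro _ ⟨l, rfl⟩
    exact Submodule.subset_span ⟨i :: l, rfl⟩
  · rw [map_zero]
    exact Submodule.zero_mem _
  · intro x y _ _ hx hy
    rw [map_add]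
    exact Submodule.add_mem _ hx hy
  · intro c x _ hx
    rw [Derivation.map_smul]
    exact Submodule.smul_mem _ _ hx

/-- `derivSpace f` is contained in every space which contains `f` and is closed under partial
derivatives. -/
theorem derivSpace_le (f : MvPolynomial σ K) (V : Submodule K (MvPolynomial σ K)) (hf : f ∈ V)
    (hV : ∀ g ∈ V, ∀ i, MvPolynomial.pderiv i g ∈ V) : derivSpace f ≤ V := by
  unfold derivSpace
  rw [Submodule.span_le]
  rintro _ ⟨l, rfl⟩
  induction l with
  | nil => exact hf
  | cons i l ih => exact hV _ ih i

theorem totalDegree_pderiv_le (i : σ) (f : MvPolynomial σ K) :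
    (MvPolynomial.pderiv i f).totalDegree ≤ f.totalDegree := by
  classical
  unfold MvPolynomial.totalDegree
  refine Finset.sup_le fun ν hν => ?_
  rw [MvPolynomial.mem_support_iff, MvPolynomial.coeff_pderiv] at hν
  have h1 : ν + Finsupp.single i 1 ∈ f.support := by
    rw [MvPolynomial.mem_support_iff]
    intro h
    apply hν
    rw [h, zero_mul]
  refine le_trans ?_ (Finset.le_sup (f := fun s : σ →₀ ℕ => s.sum fun _ e => e) h1)
  rw [Finsupp.sum_add_index' (fun _ => rfl) (fun _ _ _ => rfl)]
  exact Nat.le_add_right _ _

instance derivSpace_finite [Finite σ] (f : MvPolynomial σ K) :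
    FiniteDimensional K (derivSpace f) := by
  have h : derivSpace f ≤ MvPolynomial.restrictTotalDegree σ K f.totalDegree := by
    refine derivSpace_le f _ ?_ ?_
    · rw [MvPolynomial.mem_restrictTotalDegree]
    · intro g hg i
      rw [MvPolynomial.mem_restrictTotalDegree] at hg ⊢
      exact le_trans (totalDegree_pderiv_le i g) hg
  exact Submodule.finiteDimensional_of_le h

end Pool.Agent.SPD
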