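import Mathlib

/-!
Project SPD (MP_e2be99_lc): explicit hitting sets of polynomial size.  Common definitions.

`P(t) = prod_i (1 - b_i t)`, `G_i(t) = a_i prod_{j <> i} (1 - b_j t)`.  A finite dimensional space
`V` over `K` with basis `v_j` (`j : Fin s`) and operators `del_i` (`i : sig`),
`del_i v_j = sum_l A i j l v_l`, is used through coordinates: `F : Fin s → K[X]` stands for
`sum_j F_j v_j` in `K[t] (x) V`, and `TT` is the operator `D = P d/dt + sum_i G_i del_i`.
-/

set_option autoImplicit false

namespace Pool.Agent.SPD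

open Polynomial

variable {K : Type*} [Field K] {σ : Type*} [Fintype σ] [DecidableEq σ]

/-- `P(t) = prod_i (1 - b_i t)`. -/
noncomputable def PP (b : σ → K) : K[X] := ∏ i, (1 - C (b i) * X)

/-- `G_i(t) = a_i prod_{j ≠ i} (1 - b_j t)`. -/
noncomputable def GG (a b : σ → K) (i : σ) : K[X] :=
  C (a i) * ∏ j ∈ Finset.univ.erase i, (1 - C (b j) * X)

/-- `D F = P dF/dt + sum_i G_i del_i F` in coordinates, `del_i v_j = sum_l A i j l v_l`. -/
noncomputable def TT (a b : σ → K) {s : ℕ} (A : σ → Fin s → Fin s → K)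
    (F : Fin s → K[X]) : Fin s → K[X] :=
  fun l => PP b * derivative (F l) + ∑ i, GG a b i * ∑ j, F j * C (A i j l)

/-- The power series `(a/b) (-log (1 - b t)) = sum_{k >= 1} a b^(k-1) t^k / k`. -/
noncomputable def gam (a b : K) : PowerSeries K :=
  PowerSeries.mk fun k => a * b ^ (k - 1) / (k : K)

/-- The truncation of `gam` at degree `M`. -/
noncomputable def gamT (M : ℕ) (a b : K) : K[X] :=
  ∑ k ∈ Finset.range (M + 1), C (a * b ^ (k - 1) / (k : K)) * X ^ k

/-- Substitution `x_i = gam (a_i) (b_i)`. -/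
noncomputable def evK (a b : σ → K) : MvPolynomial σ K →ₐ[K] PowerSeries K :=
  MvPolynomial.aeval (fun i => gam (a i) (b i))

end Pool.Agent.SPD
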