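import Pool.Agent.SPD.Defs

set_option autoImplicit false

namespace Pool.Agent.SPD

open Polynomial

variable {K : Type*} [Field K]

/- Joint injectivity of the coefficient functionals passes from `K` to `K[X]`.
PLAN.  For each `m` the vector `fun j => (v j).coeff m` is killed by all `lam ν`
(`Polynomial.finset_sum_coeff`, `Polynomial.coeff_mul_C`). -/
theorem inj_poly {s : ℕ} {I : Type*} (lam : I → Fin s → K)
    (hlam : ∀ v : Fin s → K, (∀ ν, ∑ j, v j * lam ν j = 0) → v = 0)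
    (v : Fin s → K[X]) (hv : ∀ ν, ∑ j, v j * C (lam ν j) = 0) : v = 0 := by
  funext j
  ext m
  have h1 : (fun j => (v j).coeff m) = 0 := by
    refine hlam _ fun ν => ?_
    have h2 := congrArg (fun p : K[X] => p.coeff m) (hv ν)
    simpa [Polynomial.finsetSum_coeff, Polynomial.coeff_mul_C] using h2
  simpa using congrFun h1 j

/- PLAN.  Choose `m` with `w = fun j => (v j).coeff m ≠ 0`.  `∑ j, w j * lam ν j = 0` for
`deg ν ≠ 0`.  By `hlam` there is `ν0` with `x = ∑ j, w j * lam ν0 j ≠ 0`, so `deg ν0 = 0`;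
`e = fun j => x⁻¹ * w j`.  Put `q = ∑ j, v j * C (lam ν0 j)`; `v - q • (C ∘ e)` is killed by all
functionals (`hone`), so it is `0` by `inj_poly`; `q ≠ 0` since `v ≠ 0`. -/
theorem exists_const {s : ℕ} {I : Type*} (deg : I → ℕ) (lam : I → Fin s → K)
    (hlam : ∀ v : Fin s → K, (∀ ν, ∑ j, v j * lam ν j = 0) → v = 0)
    (hone : ∀ ν ν', deg ν = 0 → deg ν' = 0 → ν = ν')
    (v : Fin s → K[X]) (hv : v ≠ 0) (hdeg : ∀ ν, deg ν ≠ 0 → ∑ j, v j * C (lam ν j) = 0) :
    ∃ e : Fin s → K, (∀ ν, deg ν ≠ 0 → ∑ j, e j * lam ν j = 0) ∧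
      (∃ ν0, deg ν0 = 0 ∧ ∑ j, e j * lam ν0 j = 1) ∧
      ∃ q : K[X], q ≠ 0 ∧ v = q • (fun j => C (e j)) := by
  classical
  have h1 : ∃ m : ℕ, (fun j => (v j).coeff m) ≠ (0 : Fin s → K) := by
    by_contra hcon
    push Not at hcon
    apply hv
    funext j
    ext m
    simpa using congrFun (hcon m) j
  obtain ⟨m, hm⟩ := h1
  set w : Fin s → K := fun j => (v j).coeff m with hw
  have h2 : ∀ ν, deg ν ≠ 0 → ∑ j, w j * lam ν j = 0 := by
    intro ν hν
    have h3 := congrArg (fun p : K[X] => p.coeff m) (hdeg ν hν)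
    simpa [Polynomial.finsetSum_coeff, Polynomial.coeff_mul_C, hw] using h3
  have h4 : ∃ ν0, ∑ j, w j * lam ν0 j ≠ 0 := by
    by_contra hcon
    push Not at hcon
    exact hm (hlam w hcon)
  obtain ⟨ν0, hν0⟩ := h4
  have hd0 : deg ν0 = 0 := by
    by_contra h
    exact hν0 (h2 ν0 h)
  set x : K := ∑ j, w j * lam ν0 j with hx
  have he1 : ∑ j, (x⁻¹ * w j) * lam ν0 j = 1 := by
    have : ∑ j, (x⁻¹ * w j) * lam ν0 j = x⁻¹ * x := by
      rw [hx, Finset.mul_sum]
      exact Finset.sum_congr rfl fun j _ => by ring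
    rw [this, inv_mul_cancel₀ hν0]
  have he0 : ∀ ν, deg ν ≠ 0 → ∑ j, (x⁻¹ * w j) * lam ν j = 0 := by
    intro ν hν
    have : ∑ j, (x⁻¹ * w j) * lam ν j = x⁻¹ * ∑ j, w j * lam ν j := by
      rw [Finset.mul_sum]
      exact Finset.sum_congr rfl fun j _ => by ring
    rw [this, h2 ν hν, mul_zero]
  have hq : v = (∑ j, v j * C (lam ν0 j)) • (fun j => C (x⁻¹ * w j)) := by
    have h5 : v - (∑ j, v j * C (lam ν0 j)) • (fun j => C (x⁻¹ * w j)) = 0 := by
      refine inj_poly lam hlam _ fun ν => ?_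
      have h6 : ∑ j, (v - (∑ j, v j * C (lam ν0 j)) • (fun j => C (x⁻¹ * w j))) j * C (lam ν j)
          = ∑ j, v j * C (lam ν j) -
            (∑ j, v j * C (lam ν0 j)) * C (∑ j, (x⁻¹ * w j) * lam ν j) := by
        rw [map_sum, Finset.mul_sum, ← Finset.sum_sub_distrib]
        refine Finset.sum_congr rfl fun j _ => ?_
        simp only [Pi.sub_apply, Pi.smul_apply, smul_eq_mul, map_mul]
        ring
      rw [h6]
      by_cases hν : deg ν = 0
      · have := hone ν ν0 hν hd0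
        subst this
        rw [he1, map_one, mul_one, sub_self]
      · rw [hdeg ν hν, he0 ν hν, map_zero, mul_zero, sub_self]
    exact sub_eq_zero.mp h5
  refine ⟨fun j => x⁻¹ * w j, he0, ⟨ν0, hd0, he1⟩, _, ?_, hq⟩
  intro h0
  rw [h0, zero_smul] at hq
  exact hv hq

end Pool.Agent.SPD
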