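import Pool.Agent.SPD.Defs

/-!
# SPD: seven lemmas on the operator `TT`
-/

set_option autoImplicit false

namespace Pool.Agent.SPD

open Polynomial

variable {K : Type*} [Field K] {σ : Type*} [Fintype σ] [DecidableEq σ]

theorem TT_add (a b : σ → K) {s : ℕ} (A : σ → Fin s → Fin s → K) (F G : Fin s → K[X]) :
    TT a b A (F + G) = TT a b A F + TT a b A G := by
  funext l
  simp only [TT, Pi.add_apply, derivative_add, add_mul, Finset.sum_add_distrib, mul_add]
  ring

theorem TT_smul (a b : σ → K) {s : ℕ} (A : σ → Fin s → Fin s → K) (q : K[X])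
    (F : Fin s → K[X]) :
    TT a b A (q • F) = (PP b * derivative q) • F + q • TT a b A F := by
  funext l
  simp only [TT, Pi.add_apply, Pi.smul_apply, smul_eq_mul, derivative_mul, mul_add]
  have h : ∑ i, GG a b i * ∑ j, q * F j * C (A i j l) = q * ∑ i, GG a b i * ∑ j, F j * C (A i j l) := by
    rw [Finset.mul_sum]
    refine Finset.sum_congr rfl fun i _ => ?_
    have h1 : ∑ j, q * F j * C (A i j l) = q * ∑ j, F j * C (A i j l) := by
      rw [Finset.mul_sum]
      exact Finset.sum_congr rfl fun j _ => by ring
    rw [h1]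
    ring
  rw [h]
  ring

private theorem tt_lin (c : K) : (1 - C c * X : K[X]).natDegree ≤ 1 := by
  refine (natDegree_sub_le _ _).trans ?_
  rw [natDegree_one]
  exact max_le (Nat.zero_le _) ((natDegree_C_mul_le _ _).trans natDegree_X_le)

omit [DecidableEq σ] in
private theorem tt_PP (b : σ → K) : (PP b).natDegree ≤ Fintype.card σ := by
  unfold PP
  refine (natDegree_prod_le _ _).trans ?_
  refine (Finset.sum_le_card_nsmul _ _ 1 fun i _ => tt_lin (b i)).trans ?_
  simp

private theorem tt_GG (a b : σ → K) (i : σ) : (GG a b i).natDegree ≤ Fintype.card σ - 1 := by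
  unfold GG
  refine (natDegree_C_mul_le _ _).trans ?_
  refine (natDegree_prod_le _ _).trans ?_
  refine (Finset.sum_le_card_nsmul _ _ 1 fun i _ => tt_lin (b i)).trans ?_
  rw [Finset.card_erase_of_mem (Finset.mem_univ i)]
  simp

theorem TT_natDegree (a b : σ → K) {s : ℕ} (A : σ → Fin s → Fin s → K) (F : Fin s → K[X])
    (m : ℕ) (hF : ∀ j, (F j).natDegree ≤ m) (l : Fin s) :
    (TT a b A F l).natDegree ≤ m + (Fintype.card σ - 1) := by
  unfold TT
  refine (natDegree_add_le _ _).trans (max_le ?_ ?_)
  · by_cases h : derivative (F l) = 0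
    · rw [h, mul_zero, natDegree_zero]
      exact Nat.zero_le _
    · have h1 : (F l).natDegree ≠ 0 := by
        intro h0
        apply h
        rw [eq_C_of_natDegree_eq_zero h0, derivative_C]
      have h2 := natDegree_derivative_le (F l)
      have h3 := hF l
      refine natDegree_mul_le.trans ?_
      rcases Nat.eq_zero_or_pos (Fintype.card σ) with h4 | h4
      · have h5 := tt_PP b
        omega
      · have h5 := tt_PP b
        omega
  · refine natDegree_sum_le_of_forall_le _ _ fun i _ => ?_
    refine natDegree_mul_le.trans ?_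
    have h1 : (∑ j, F j * C (A i j l)).natDegree ≤ m := by
      refine natDegree_sum_le_of_forall_le _ _ fun j _ => ?_
      exact (natDegree_mul_C_le _ _).trans (hF j)
    have h2 := tt_GG a b i
    omega

theorem TT_iterate_natDegree (a b : σ → K) {s : ℕ} (A : σ → Fin s → Fin s → K)
    (x : Fin s → K) (k : ℕ) (l : Fin s) :
    ((TT a b A)^[k] (fun j => C (x j)) l).natDegree ≤ k * (Fintype.card σ - 1) := by
  induction k generalizing l with
  | zero =>
    rw [Function.iterate_zero, id, natDegree_C]
    exact Nat.zero_le _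
  | succ k ih =>
    rw [Function.iterate_succ_apply', Nat.succ_mul]
    exact TT_natDegree a b A _ _ ih l

theorem sum_TT (a b : σ → K) {s : ℕ} (A : σ → Fin s → Fin s → K) (w : Fin s → PowerSeries K)
    (hw : ∀ j, (PP b : PowerSeries K) * PowerSeries.derivative K (w j) =
      ∑ i, (GG a b i : PowerSeries K) * ∑ l, PowerSeries.C (A i j l) * w l)
    (F : Fin s → K[X]) :
    ∑ l, (TT a b A F l : PowerSeries K) * w l =
      (PP b : PowerSeries K) * PowerSeries.derivative K (∑ j, (F j : PowerSeries K) * w j) := by
  have h1 : ∀ l, (TT a b A F l : PowerSeries K) =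
      (PP b : PowerSeries K) * (derivative (F l) : PowerSeries K) +
        ∑ i, (GG a b i : PowerSeries K) * ∑ j, (F j : PowerSeries K) * PowerSeries.C (A i j l) := by
    intro l
    have h2 : ∀ q : K[X], (q : PowerSeries K) = Polynomial.coeToPowerSeries.ringHom q := fun q => rfl
    have h3 : ∀ c : K, PowerSeries.C c = Polynomial.coeToPowerSeries.ringHom (C c) := fun c =>
      (Polynomial.coe_C c).symm
    simp only [h2, h3, TT, map_add, map_mul, map_sum]
  have h4 : ∑ l, (TT a b A F l : PowerSeries K) * w l =
      ∑ l, (PP b : PowerSeries K) * (derivative (F l) : PowerSeries K) * w l +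
        ∑ j, (F j : PowerSeries K) *
          ∑ i, (GG a b i : PowerSeries K) * ∑ l, PowerSeries.C (A i j l) * w l := by
    have h5 : ∀ l, (TT a b A F l : PowerSeries K) * w l =
        (PP b : PowerSeries K) * (derivative (F l) : PowerSeries K) * w l +
          ∑ j, ∑ i, (F j : PowerSeries K) * ((GG a b i : PowerSeries K) * (PowerSeries.C (A i j l) * w l)) := by
      intro l
      rw [h1 l, add_mul]
      congr 1
      rw [Finset.sum_mul, Finset.sum_comm]
      refine Finset.sum_congr rfl fun i _ => ?_
      rw [Finset.mul_sum, Finset.sum_mul]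
      exact Finset.sum_congr rfl fun j _ => by ring
    rw [Finset.sum_congr rfl fun l _ => h5 l, Finset.sum_add_distrib]
    congr 1
    rw [Finset.sum_comm]
    refine Finset.sum_congr rfl fun j _ => ?_
    rw [Finset.sum_comm, Finset.mul_sum]
    refine Finset.sum_congr rfl fun i _ => ?_
    rw [Finset.mul_sum, Finset.mul_sum]
  have h6 : ∑ j, (F j : PowerSeries K) *
      (∑ i, (GG a b i : PowerSeries K) * ∑ l, PowerSeries.C (A i j l) * w l) =
      ∑ j, (F j : PowerSeries K) * ((PP b : PowerSeries K) * PowerSeries.derivative K (w j)) :=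
    Finset.sum_congr rfl fun j _ => by rw [← hw j]
  rw [h4, h6, map_sum, Finset.mul_sum, ← Finset.sum_add_distrib]
  refine Finset.sum_congr rfl fun l _ => ?_
  rw [Derivation.leibniz, PowerSeries.derivative_coe, smul_eq_mul, smul_eq_mul]
  ring

theorem dvd_mul_derivative (m : ℕ) (P φ : PowerSeries K)
    (h : (PowerSeries.X : PowerSeries K) ^ (m + 1) ∣ φ) :
    (PowerSeries.X : PowerSeries K) ^ m ∣ P * PowerSeries.derivative K φ := by
  refine Dvd.dvd.mul_left ?_ P
  rw [PowerSeries.X_pow_dvd_iff] at h ⊢
  intro n hn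
  rw [PowerSeries.coeff_derivative, h (n + 1) (by omega), zero_mul]

theorem dvd_iterate (a b : σ → K) {s : ℕ} (A : σ → Fin s → Fin s → K)
    (w : Fin s → PowerSeries K)
    (hw : ∀ j, (PP b : PowerSeries K) * PowerSeries.derivative K (w j) =
      ∑ i, (GG a b i : PowerSeries K) * ∑ l, PowerSeries.C (A i j l) * w l)
    (F : Fin s → K[X]) (m k : ℕ)
    (h : (PowerSeries.X : PowerSeries K) ^ (m + k) ∣ ∑ j, (F j : PowerSeries K) * w j) :
    (PowerSeries.X : PowerSeries K) ^ m ∣
      ∑ j, ((TT a b A)^[k] F j : PowerSeries K) * w j := by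
  induction k generalizing m with
  | zero => exact h
  | succ k ih =>
    rw [Function.iterate_succ_apply', sum_TT a b A w hw]
    refine dvd_mul_derivative m _ _ (ih (m + 1) ?_)
    have h1 : m + 1 + k = m + (k + 1) := by omega
    rw [h1]
    exact h

end Pool.Agent.SPD
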