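import Pool.Agent.SPD.Space
import Pool.Agent.SPD.Trunc
import Pool.Agent.SPD.DSp

/-! The explicit points and the hitting property. -/

set_option autoImplicit false

namespace Pool.Agent.SPD

open MvPolynomial

/-- `M! (u + u^2/2 + ... + u^M/M)` for `u = i * t`, a natural number. -/
def hitPt (M i t : ℕ) : ℕ := ∑ k ∈ Finset.Icc 1 M, (M.factorial / k) * (i * t) ^ k

variable {K : Type*} [Field K] [CharZero K]

theorem gamT_eval (M i t : ℕ) :
    (gamT M ((M.factorial : K) * (i : K)) (i : K)).eval (t : K) = ((hitPt M i t : ℕ) : K) := by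
  unfold gamT hitPt
  rw [Polynomial.eval_finsetSum, Nat.cast_sum, Finset.sum_range_succ']
  have h0 : (Polynomial.C ((M.factorial : K) * (i : K) * (i : K) ^ (0 - 1) / ((0 : ℕ) : K)) *
      Polynomial.X ^ 0 : Polynomial K).eval (t : K) = 0 := by
    simp
  rw [h0, add_zero]
  have hIcc : Finset.Icc 1 M = (Finset.range M).map ⟨fun k => k + 1, fun a b h => by
      simpa using h⟩ := by
    ext k
    simp only [Finset.mem_Icc, Finset.mem_map, Finset.mem_range, Function.Embedding.coeFn_mk]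
    constructor
    · intro h
      exact ⟨k - 1, by omega, by omega⟩
    · rintro ⟨a, ha, rfl⟩
      omega
  rw [hIcc, Finset.sum_map]
  refine Finset.sum_congr rfl fun k hk => ?_
  have hk' := Finset.mem_range.1 hk
  simp only [Function.Embedding.coeFn_mk, Nat.add_sub_cancel]
  rw [Polynomial.eval_mul, Polynomial.eval_C, Polynomial.eval_pow, Polynomial.eval_X]
  have hdvd : (k + 1) ∣ M.factorial := Nat.dvd_factorial (by omega) (by omega)
  rw [Nat.cast_mul, Nat.cast_div hdvd (by exact_mod_cast (Nat.succ_ne_zero k)), Nat.cast_pow,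
    Nat.cast_mul]
  have hk1 : ((k + 1 : ℕ) : K) ≠ 0 := by exact_mod_cast (Nat.succ_ne_zero k)
  field_simp
  ring

theorem bound_le (n s s' : ℕ) (hn : 1 ≤ n) (hs : s' ≤ s) :
    (s' - 1) + ∑ k ∈ Finset.range s', k * (n - 1) ≤ n * s ^ 2 := by
  have h1 : ∑ k ∈ Finset.range s', k * (n - 1) ≤ ∑ _k ∈ Finset.range s', s' * (n - 1) :=
    Finset.sum_le_sum fun k hk => Nat.mul_le_mul_right _ (Finset.mem_range.1 hk).le
  rw [Finset.sum_const, Finset.card_range, smul_eq_mul] at h1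
  have h2 : s' - 1 ≤ s' * s' := by
    rcases Nat.eq_zero_or_pos s' with h | h
    · subst h; simp
    · exact le_trans (Nat.sub_le _ _) (Nat.le_mul_of_pos_left _ h)
  obtain ⟨m, rfl⟩ : ∃ m, n = m + 1 := ⟨n - 1, by omega⟩
  have h3 : s' * s' ≤ s * s := Nat.mul_le_mul hs hs
  calc (s' - 1) + ∑ k ∈ Finset.range s', k * (m + 1 - 1)
      ≤ s' * s' + s' * (s' * (m + 1 - 1)) := Nat.add_le_add h2 h1
    _ = (m + 1) * (s' * s') := by rw [Nat.add_sub_cancel]; ring
    _ ≤ (m + 1) * (s * s) := Nat.mul_le_mul_left _ h3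
    _ = (m + 1) * s ^ 2 := by rw [sq]

theorem curve_ne_zero (n s : ℕ) (g : MvPolynomial (Fin n) K) (hg : g ≠ 0)
    (hs : Module.finrank K (derivSpace g) ≤ s) :
    aeval (fun i : Fin n => gamT (n * s ^ 2)
      (((n * s ^ 2).factorial : K) * (((i : ℕ) + 1 : ℕ) : K)) ((((i : ℕ) + 1 : ℕ)) : K)) g ≠ 0 := by
  rcases Nat.eq_zero_or_pos n with hn | hn
  · subst hn
    have hC := MvPolynomial.eq_C_of_isEmpty g
    have ha : coeff 0 g ≠ 0 := by
      intro h
      apply hg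
      rw [hC, h, C_0]
    rw [hC]
    rw [aeval_C, ← Polynomial.C_eq_algebraMap]
    exact Polynomial.C_ne_zero.2 ha
  · have hi : ∀ i : Fin n, ((((i : ℕ) + 1 : ℕ)) : K) ≠ 0 := fun i =>
      Nat.cast_ne_zero.2 (Nat.succ_ne_zero (i : ℕ))
    have hM : (((n * s ^ 2).factorial : ℕ) : K) ≠ 0 :=
      Nat.cast_ne_zero.2 (Nat.factorial_ne_zero _)
    refine aeval_gamT_ne_zero
      (fun i : Fin n => (((n * s ^ 2).factorial : K) * (((i : ℕ) + 1 : ℕ) : K)))
      (fun i : Fin n => ((((i : ℕ) + 1 : ℕ)) : K)) g (n * s ^ 2) ?_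
    refine order_space _ _ (fun i => mul_ne_zero hM (hi i)) hi ?_ (derivSpace g)
      (pderiv_mem_derivSpace g) g (mem_derivSpace g) hg _ ?_
    · intro i j hij
      have : ((i : ℕ) + 1 : ℕ) = (j : ℕ) + 1 := Nat.cast_injective (R := K) hij
      exact Fin.ext (by omega)
    · rw [Fintype.card_fin]
      exact bound_le n s _ hn hs

theorem hit_main (n d s m : ℕ) (g : Fin m → MvPolynomial (Fin n) K) (hg0 : ∀ j, g j ≠ 0)
    (hgs : ∀ j, Module.finrank K (derivSpace (g j)) ≤ s) (f : MvPolynomial (Fin n) K)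
    (hf : f ∣ ∏ j, g j) (hd : f.totalDegree ≤ d) :
    ∃ t : ℕ, t ≤ d * (n * s ^ 2) ∧
      eval (fun i : Fin n => ((hitPt (n * s ^ 2) ((i : ℕ) + 1) t : ℕ) : K)) f ≠ 0 := by
  have h1 : aeval (fun i : Fin n => gamT (n * s ^ 2)
      (((n * s ^ 2).factorial : K) * (((i : ℕ) + 1 : ℕ) : K)) ((((i : ℕ) + 1 : ℕ)) : K)) f ≠ 0 := by
    intro h0
    obtain ⟨h, hh⟩ := hf
    have h2 := congrArg (aeval (fun i : Fin n => gamT (n * s ^ 2)
      (((n * s ^ 2).factorial : K) * (((i : ℕ) + 1 : ℕ) : K)) ((((i : ℕ) + 1 : ℕ)) : K))) hh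
    rw [map_mul, h0, zero_mul, map_prod, Finset.prod_eq_zero_iff] at h2
    obtain ⟨j, -, hj⟩ := h2
    exact curve_ne_zero n s (g j) (hg0 j) (hgs j) hj
  obtain ⟨t, ht, hne⟩ := exists_point _ _ f d (n * s ^ 2) hd h1
  refine ⟨t, ht, ?_⟩
  have : (fun i : Fin n => (gamT (n * s ^ 2)
      (((n * s ^ 2).factorial : K) * (((i : ℕ) + 1 : ℕ) : K)) ((((i : ℕ) + 1 : ℕ)) : K)).eval
        (t : K)) = fun i : Fin n => ((hitPt (n * s ^ 2) ((i : ℕ) + 1) t : ℕ) : K) := by
    funext i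
    exact gamT_eval (n * s ^ 2) ((i : ℕ) + 1) t
  rw [← this]
  exact hne

end Pool.Agent.SPD
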