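import Pool.Agent.SPD.Defs

set_option autoImplicit false

namespace Pool.Agent.SPD

open Polynomial

variable {K : Type*} [Field K] [CharZero K] {σ : Type*} [Fintype σ] [DecidableEq σ]

private theorem res_der (τ : K) (k : ℕ) (q : K[X]) : (X - C τ) * derivative ((X - C τ) ^ k * q) =
    (X - C τ) ^ k * (C (k : K) * q + (X - C τ) * derivative q) := by
  rw [derivative_mul, derivative_X_sub_C_pow]
  rcases k with _ | k
  · simp
  · rw [Nat.add_sub_cancel, pow_succ]
    ring

omit [CharZero K] in
private theorem res_fac {f : K[X]} (hf : f ≠ 0) (τ : K) : ∃ (k : ℕ) (q : K[X]), f = (X - C τ) ^ k * q ∧ q.eval τ ≠ 0 := by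
  obtain ⟨q, h1, h2⟩ := exists_eq_pow_rootMultiplicity_mul_and_not_dvd f hf τ
  refine ⟨_, q, h1, fun h3 => h2 (dvd_iff_isRoot.2 h3)⟩

omit [CharZero K] in
private theorem res_prod {b : σ → K} (hb : ∀ i, b i ≠ 0) (hinj : Function.Injective b) (i : σ) :
    (∏ j ∈ Finset.univ.erase i, (1 - C (b j) * X) : K[X]).eval (b i)⁻¹ ≠ 0 := by
  rw [eval_prod]
  refine Finset.prod_ne_zero_iff.2 fun j hj => ?_
  rw [eval_sub, eval_one, eval_mul, eval_C, eval_X]
  intro h
  have h1 : b j = b i := by
    have h2 := sub_eq_zero.1 h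
    field_simp [hb i] at h2
    exact h2.symm
  exact (Finset.mem_erase.1 hj).1 (hinj h1)

omit [CharZero K] in
private theorem res_S {a b : σ → K} (ha : ∀ i, a i ≠ 0) (hb : ∀ i, b i ≠ 0) (hinj : Function.Injective b)
    (e : σ → K) (i : σ) (he : e i ≠ 0) : (∑ j, GG a b j * C (e j)).eval (b i)⁻¹ ≠ 0 := by
  rw [eval_finsetSum, Finset.sum_eq_single i]
  · unfold GG
    rw [eval_mul, eval_mul, eval_C, eval_C]
    exact mul_ne_zero (mul_ne_zero (ha i) (res_prod hb hinj i)) he
  · intro j _ hji
    unfold GG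
    rw [eval_mul, eval_mul, eval_prod, Finset.prod_eq_zero (Finset.mem_erase.2 ⟨hji.symm, Finset.mem_univ i⟩)]
    · rw [mul_zero, zero_mul]
    · rw [eval_sub, eval_one, eval_mul, eval_C, eval_X, mul_inv_cancel₀ (hb i), sub_self]
  · intro h
    exact absurd (Finset.mem_univ i) h

omit [CharZero K] in
private theorem res_P {b : σ → K} (hb : ∀ i, b i ≠ 0) (hinj : Function.Injective b) (i : σ) :
    ∃ P0 : K[X], PP b = (X - C (b i)⁻¹) * P0 ∧ P0.eval (b i)⁻¹ ≠ 0 := by
  refine ⟨C (-(b i)) * ∏ j ∈ Finset.univ.erase i, (1 - C (b j) * X), ?_, ?_⟩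
  · unfold PP
    rw [← Finset.mul_prod_erase Finset.univ _ (Finset.mem_univ i), ← mul_assoc]
    congr 1
    have h1 : (C (b i)⁻¹ : K[X]) * C (b i) = 1 := by
      rw [← C_mul, inv_mul_cancel₀ (hb i), C_1]
    rw [C_neg]
    linear_combination -h1
  · rw [eval_mul, eval_C]
    exact mul_ne_zero (neg_ne_zero.2 (hb i)) (res_prod hb hinj i)

/-- the derivative of a rational function has no simple pole -/
theorem residue (a b : σ → K) (ha : ∀ i, a i ≠ 0) (hb : ∀ i, b i ≠ 0)
    (hinj : Function.Injective b) (α β : K[X]) (hα : α ≠ 0) (e : σ → K)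
    (h : PP b * (α * derivative β - derivative α * β) +
      α ^ 2 * ∑ i, GG a b i * C (e i) = 0) : ∀ i, e i = 0 := by
  intro i
  by_contra he
  obtain ⟨P0, hP, hP0⟩ := res_P hb hinj i
  have hS := res_S ha hb hinj e i he
  generalize (∑ i, GG a b i * C (e i) : K[X]) = S at h hS
  generalize (b i)⁻¹ = τ at hP hP0 hS
  by_cases hβ : β = 0
  · rw [hβ, derivative_zero, mul_zero, mul_zero, sub_zero, mul_zero, zero_add] at h
    rcases mul_eq_zero.1 h with h1 | h1
    · exact hα (pow_eq_zero_iff two_ne_zero |>.1 h1)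
    · rw [h1, eval_zero] at hS
      exact hS rfl
  · obtain ⟨k, α0, hα1, hα0⟩ := res_fac hα τ
    obtain ⟨l, β0, hβ1, hβ0⟩ := res_fac hβ τ
    have d1 := res_der τ k α0
    have d2 := res_der τ l β0
    rw [← hα1] at d1
    rw [← hβ1] at d2
    have hξ : (X - C τ : K[X]) ≠ 0 := X_sub_C_ne_zero τ
    have e1 : PP b * (α * derivative β - derivative α * β) = P0 * ((X - C τ) ^ (k + l) *
        ((C (l : K) - C (k : K)) * (α0 * β0) + (X - C τ) * (α0 * derivative β0 - derivative α0 * β0))) := by
      have e2 : PP b * (α * derivative β - derivative α * β) =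
          P0 * (α * ((X - C τ) * derivative β) - ((X - C τ) * derivative α) * β) := by
        rw [hP]
        ring
      rw [e2, d1, d2, hα1, hβ1, pow_add]
      ring
    rw [e1] at h
    rcases Nat.lt_or_ge l k with hlk | hkl
    · have e3 : (X - C τ) ^ (k + l) * (P0 * ((C (l : K) - C (k : K)) * (α0 * β0) +
          (X - C τ) * (α0 * derivative β0 - derivative α0 * β0)) + (X - C τ) ^ (k - l) * (α0 ^ 2 * S)) = 0 := by
        rw [← h, hα1]
        have e4 : (X - C τ) ^ (k + l) * ((X - C τ) ^ (k - l) * (α0 ^ 2 * S)) = ((X - C τ) ^ k * α0) ^ 2 * S := by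
          rw [← mul_assoc, ← pow_add, mul_pow, ← pow_mul]
          have e5 : k + l + (k - l) = k * 2 := by omega
          rw [e5]
          ring
        rw [mul_add, e4]
        ring
      have e6 := (mul_eq_zero.1 e3).resolve_left (pow_ne_zero _ hξ)
      have e7 := congrArg (eval τ) e6
      have e8 : (X - C τ : K[X]).eval τ = 0 := by simp
      rw [eval_add, eval_mul, eval_add, eval_mul, eval_mul, eval_sub, eval_C, eval_C, eval_mul, eval_mul, eval_pow, e8,
        zero_mul, add_zero, zero_pow (by omega), zero_mul, add_zero, eval_zero] at e7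
      have h1 : (l : K) - (k : K) ≠ 0 := by
        intro h2
        have h3 := sub_eq_zero.1 h2
        have h4 : l = k := by exact_mod_cast h3
        omega
      exact mul_ne_zero hP0 (mul_ne_zero h1 (mul_ne_zero hα0 hβ0)) e7
    · have e3 : (X - C τ) ^ (k * 2) * (P0 * ((X - C τ) ^ (l - k) * ((C (l : K) - C (k : K)) * (α0 * β0) +
          (X - C τ) * (α0 * derivative β0 - derivative α0 * β0))) + α0 ^ 2 * S) = 0 := by
        rw [← h, hα1]
        have e5 : k + l = k * 2 + (l - k) := by omega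
        rw [e5, pow_add, mul_pow, ← pow_mul]
        ring
      have e6 := (mul_eq_zero.1 e3).resolve_left (pow_ne_zero _ hξ)
      have e7 := congrArg (eval τ) e6
      have e8 : (X - C τ : K[X]).eval τ = 0 := by simp
      rw [eval_add, eval_mul, eval_mul, eval_add, eval_mul, eval_mul, eval_sub, eval_C, eval_C, eval_mul, eval_mul,
        eval_pow, eval_pow, e8, zero_mul, add_zero, eval_zero] at e7
      have e9 : (0 : K) ^ (l - k) * (((l : K) - (k : K)) * (α0.eval τ * β0.eval τ)) = 0 := by
        rcases Nat.eq_or_lt_of_le hkl with h1 | h1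
        · rw [h1, sub_self, zero_mul, mul_zero]
        · rw [zero_pow (by omega), zero_mul]
      rw [e9, mul_zero, zero_add] at e7
      exact mul_ne_zero (pow_ne_zero 2 hα0) hS e7

end Pool.Agent.SPD
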