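import Pool.Agent.SPD.Wron
import Pool.Agent.SPD.Res

set_option autoImplicit false

namespace Pool.Agent.SPD

open Polynomial

variable {K : Type*} [Field K] [CharZero K] {σ : Type*} [Fintype σ] [DecidableEq σ]

/- Coefficient formula: with `L ν F = ∑ j, F j * C (lam ν j)` (the coefficient of index `ν`)
`L ν (TT F) = P * (L ν F)' + ∑ i, G_i * C (c i ν) * L (sh i ν) F`. -/
theorem pair_TT (a b : σ → K) {s : ℕ} {I : Type*} (sh : σ → I → I) (c : σ → I → K)
    (lam : I → Fin s → K) (A : σ → Fin s → Fin s → K)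
    (hA : ∀ i ν j, ∑ l, A i j l * lam ν l = c i ν * lam (sh i ν) j)
    (F : Fin s → K[X]) (ν : I) :
    ∑ l, TT a b A F l * C (lam ν l) = PP b * derivative (∑ j, F j * C (lam ν j)) +
      ∑ i, GG a b i * (C (c i ν) * ∑ j, F j * C (lam (sh i ν) j)) := by
  have h1 : ∀ l, TT a b A F l * C (lam ν l) = PP b * (derivative (F l) * C (lam ν l)) +
      ∑ i, GG a b i * ∑ j, F j * C (A i j l * lam ν l) := by
    intro l
    unfold TT
    rw [add_mul, Finset.sum_mul, mul_assoc]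
    congr 1
    refine Finset.sum_congr rfl fun i _ => ?_
    rw [mul_assoc, Finset.sum_mul]
    congr 1
    refine Finset.sum_congr rfl fun j _ => ?_
    rw [C_mul, mul_assoc]
  rw [Finset.sum_congr rfl fun l _ => h1 l, Finset.sum_add_distrib, ← Finset.mul_sum]
  congr 1
  · rw [derivative_sum]
    congr 1
    refine Finset.sum_congr rfl fun l _ => ?_
    rw [derivative_mul, derivative_C, mul_zero, add_zero]
  · rw [Finset.sum_comm]
    refine Finset.sum_congr rfl fun i _ => ?_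
    rw [← Finset.mul_sum]
    congr 1
    rw [Finset.sum_comm, Finset.mul_sum]
    refine Finset.sum_congr rfl fun j _ => ?_
    rw [← Finset.mul_sum, ← map_sum, hA i ν j, C_mul]
    ring

private theorem ka_PP (b : σ → K) : PP b ≠ 0 := by
  unfold PP
  refine Finset.prod_ne_zero_iff.2 fun i _ h => ?_
  have h1 := congrArg (eval 0) h
  simp at h1

/-- the size of `v` -/
private noncomputable def ka_N {s : ℕ} {I : Type*} (deg : I → ℕ) (lam : I → Fin s → K) (S : Finset I)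
    (v : Fin s → K[X]) : ℕ :=
  open Classical in ∑ ν ∈ S.filter (fun ν => ∑ j, v j * C (lam ν j) ≠ 0), (S.card + 1) ^ deg ν

omit [CharZero K] in
private theorem ka_lt {s : ℕ} {I : Type*} (deg : I → ℕ) (lam : I → Fin s → K) (S : Finset I)
    (v v' : Fin s → K[X]) (m : ℕ) (hm : 1 ≤ m) (μ : I) (hμ : μ ∈ S) (hμm : deg μ = m)
    (hμv : ∑ j, v j * C (lam μ j) ≠ 0) (hμv' : ∑ j, v' j * C (lam μ j) = 0)
    (h : ∀ ν, m ≤ deg ν → ∑ j, v j * C (lam ν j) = 0 → ∑ j, v' j * C (lam ν j) = 0) :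
    ka_N deg lam S v' < ka_N deg lam S v := by
  classical
  unfold ka_N
  set T := S.filter (fun ν => ∑ j, v j * C (lam ν j) ≠ 0) with hT
  set T' := S.filter (fun ν => ∑ j, v' j * C (lam ν j) ≠ 0) with hT'
  have hμT : μ ∈ T := Finset.mem_filter.2 ⟨hμ, hμv⟩
  have h1 : ∑ ν ∈ T', (S.card + 1) ^ deg ν = ∑ ν ∈ T'.filter (fun ν => m ≤ deg ν), (S.card + 1) ^ deg ν +
      ∑ ν ∈ T'.filter (fun ν => ¬ m ≤ deg ν), (S.card + 1) ^ deg ν :=
    (Finset.sum_filter_add_sum_filter_not T' _ _).symm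
  have h2 : ∑ ν ∈ T'.filter (fun ν => m ≤ deg ν), (S.card + 1) ^ deg ν ≤
      ∑ ν ∈ T.erase μ, (S.card + 1) ^ deg ν := by
    refine Finset.sum_le_sum_of_subset fun ν hν => ?_
    obtain ⟨hν1, hν2⟩ := Finset.mem_filter.1 hν
    obtain ⟨hν3, hν4⟩ := Finset.mem_filter.1 hν1
    refine Finset.mem_erase.2 ⟨?_, Finset.mem_filter.2 ⟨hν3, fun h0 => hν4 (h ν hν2 h0)⟩⟩
    rintro rfl
    exact hν4 hμv'
  have h3 : ∑ ν ∈ T'.filter (fun ν => ¬ m ≤ deg ν), (S.card + 1) ^ deg ν < (S.card + 1) ^ m := by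
    calc ∑ ν ∈ T'.filter (fun ν => ¬ m ≤ deg ν), (S.card + 1) ^ deg ν
        ≤ ∑ _ν ∈ T'.filter (fun ν => ¬ m ≤ deg ν), (S.card + 1) ^ (m - 1) := by
          refine Finset.sum_le_sum fun ν hν => ?_
          have := (Finset.mem_filter.1 hν).2
          exact Nat.pow_le_pow_right (Nat.succ_pos _) (by omega)
      _ = (T'.filter (fun ν => ¬ m ≤ deg ν)).card * (S.card + 1) ^ (m - 1) := by
          rw [Finset.sum_const, smul_eq_mul]
      _ ≤ S.card * (S.card + 1) ^ (m - 1) := by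
          refine Nat.mul_le_mul_right _ (Finset.card_le_card ?_)
          exact (Finset.filter_subset _ _).trans (Finset.filter_subset _ _)
      _ < (S.card + 1) * (S.card + 1) ^ (m - 1) :=
          Nat.mul_lt_mul_of_pos_right (Nat.lt_succ_self _) (Nat.pow_pos (Nat.succ_pos _))
      _ = (S.card + 1) ^ m := by
          rw [← pow_succ']
          congr 1
          omega
  have h4 : (S.card + 1) ^ m + ∑ ν ∈ T.erase μ, (S.card + 1) ^ deg ν = ∑ ν ∈ T, (S.card + 1) ^ deg ν := by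
    rw [← hμm]
    exact Finset.add_sum_erase T (fun ν => (S.card + 1) ^ deg ν) hμT
  omega

/- PLAN (minimal element argument).  `L ν v = ∑ j, v j * C (lam ν j)`; formula `pair_TT`.
For `v ∈ R`, `v ≠ 0` the finite set `S.filter (fun ν => L ν v ≠ 0)` is not empty (`hinj`, `hS`).
Choose `v ∈ R`, `v ≠ 0`, first with `m = sup of deg over this set` minimal and then with the number
of `ν` in it with `deg ν = m` minimal (or minimise the single number
`∑ ν ∈ S with L ν v ≠ 0, (S.card + 1) ^ deg ν`).  If `m = 0`, done.  Suppose `m ≥ 1`.  Choose `μ`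
with `deg μ = m`, `α = L μ v ≠ 0`, and `v' = α • TT v - (PP b * derivative α) • v ∈ R`.
For `deg ν ≥ m` all `L (sh i ν) v = 0`, so `L ν v' = PP b * (α * (L ν v)' - α' * L ν v)`: `0` if
`L ν v = 0`, and `0` for `ν = μ`.  So `v' = 0` by minimality.  For `deg ν = m`: `wron_zero` (cancel
`PP b ≠ 0`) gives `L ν v = C (k ν) * α`.  By `hsurj` `μ = sh i0 ν`, `c i0 ν ≠ 0`, `deg ν = m - 1`;
`β = L ν v`; `L ν v' = 0` reads
`PP b * (α * β' - α' * β) + α^2 * ∑ i, GG a b i * C (c i ν * k (sh i ν)) = 0`,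
and `residue` gives `c i0 ν * k μ = 0`, so `k μ = 0`, `α = C 0 * α = 0`.  Contradiction. -/
theorem key_abs (a b : σ → K) (ha : ∀ i, a i ≠ 0) (hb : ∀ i, b i ≠ 0)
    (hinj : Function.Injective b) {s : ℕ} {I : Type*} (deg : I → ℕ) (sh : σ → I → I)
    (c : σ → I → K) (lam : I → Fin s → K) (A : σ → Fin s → Fin s → K)
    (hsh : ∀ i ν, deg (sh i ν) = deg ν + 1)
    (hsurj : ∀ μ, deg μ ≠ 0 → ∃ i ν, sh i ν = μ ∧ c i ν ≠ 0)
    (hA : ∀ i ν j, ∑ l, A i j l * lam ν l = c i ν * lam (sh i ν) j)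
    (S : Finset I) (hS : ∀ ν, ν ∉ S → lam ν = 0)
    (hlam : ∀ v : Fin s → K[X], (∀ ν, ∑ j, v j * C (lam ν j) = 0) → v = 0)
    (R : Submodule K[X] (Fin s → K[X])) (hR : ∀ v ∈ R, TT a b A v ∈ R)
    (v0 : Fin s → K[X]) (h0 : v0 ∈ R) (hne : v0 ≠ 0) :
    ∃ v ∈ R, v ≠ 0 ∧ ∀ ν, deg ν ≠ 0 → ∑ j, v j * C (lam ν j) = 0 := by
  classical
  suffices H : ∀ n : ℕ, ∀ v ∈ R, v ≠ 0 → ka_N deg lam S v = n →
      ∃ v ∈ R, v ≠ 0 ∧ ∀ ν, deg ν ≠ 0 → ∑ j, v j * C (lam ν j) = 0 from H _ v0 h0 hne rfl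
  intro n
  induction n using Nat.strong_induction_on with
  | _ n ih =>
    intro v hv hv0 hn
    by_cases hall : ∀ ν, deg ν ≠ 0 → ∑ j, v j * C (lam ν j) = 0
    · exact ⟨v, hv, hv0, hall⟩
    push Not at hall
    obtain ⟨ν1, hν1, hν1v⟩ := hall
    have hmemS : ∀ ν, ∑ j, v j * C (lam ν j) ≠ 0 → ν ∈ S := by
      intro ν h
      by_contra hS'
      apply h
      rw [hS ν hS']
      simp
    obtain ⟨μ, hμT, hmax⟩ := (S.filter (fun ν => ∑ j, v j * C (lam ν j) ≠ 0)).exists_max_image deg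
      ⟨ν1, Finset.mem_filter.2 ⟨hmemS ν1 hν1v, hν1v⟩⟩
    obtain ⟨hμS, hμv⟩ := Finset.mem_filter.1 hμT
    have hμ1 : 1 ≤ deg μ := by
      have := hmax ν1 (Finset.mem_filter.2 ⟨hmemS ν1 hν1v, hν1v⟩)
      omega
    have hbig : ∀ ν, deg μ < deg ν → ∑ j, v j * C (lam ν j) = 0 := by
      intro ν hν
      by_contra hne'
      have := hmax ν (Finset.mem_filter.2 ⟨hmemS ν hne', hne'⟩)
      omega
    obtain ⟨α, hα⟩ : ∃ α, α = ∑ j, v j * C (lam μ j) := ⟨_, rfl⟩
    have hα0 : α ≠ 0 := by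
      rw [hα]
      exact hμv
    obtain ⟨v', hv'⟩ : ∃ v', v' = α • TT a b A v - (PP b * derivative α) • v := ⟨_, rfl⟩
    have hv'R : v' ∈ R := by
      rw [hv']
      exact R.sub_mem (R.smul_mem _ (hR v hv)) (R.smul_mem _ hv)
    have hLv' : ∀ ν, ∑ j, v' j * C (lam ν j) = α * (PP b * derivative (∑ j, v j * C (lam ν j)) +
        ∑ i, GG a b i * (C (c i ν) * ∑ j, v j * C (lam (sh i ν) j))) -
        PP b * derivative α * ∑ j, v j * C (lam ν j) := by
      intro ν
      rw [← pair_TT a b sh c lam A hA v ν, hv', Finset.mul_sum, Finset.mul_sum, ← Finset.sum_sub_distrib]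
      refine Finset.sum_congr rfl fun j _ => ?_
      rw [Pi.sub_apply, Pi.smul_apply, Pi.smul_apply, smul_eq_mul, smul_eq_mul]
      ring
    have hLtop : ∀ ν, deg μ ≤ deg ν → ∑ j, v' j * C (lam ν j) =
        PP b * (α * derivative (∑ j, v j * C (lam ν j)) - derivative α * ∑ j, v j * C (lam ν j)) := by
      intro ν hν
      rw [hLv' ν]
      have hz : ∑ i, GG a b i * (C (c i ν) * ∑ j, v j * C (lam (sh i ν) j)) = 0 := by
        refine Finset.sum_eq_zero fun i _ => ?_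
        rw [hbig (sh i ν) (by rw [hsh]; omega), mul_zero, mul_zero]
      rw [hz]
      ring
    by_cases hv'0 : v' = 0
    · exfalso
      have hzero : ∀ ν, ∑ j, v' j * C (lam ν j) = 0 := by
        intro ν
        rw [hv'0]
        simp
      have hk : ∀ ν, deg ν = deg μ → ∃ k : K, ∑ j, v j * C (lam ν j) = C k * α := by
        intro ν hν
        have h1 := hLtop ν (by omega)
        rw [hzero ν] at h1
        have h2 := (mul_eq_zero.1 h1.symm).resolve_left (ka_PP b)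
        exact wron_zero α _ hα0 (sub_eq_zero.1 h2)
      obtain ⟨i0, ν0, hi0, hc0⟩ := hsurj μ (by omega)
      have hdeg : ∀ i, deg (sh i ν0) = deg μ := by
        intro i
        rw [hsh, ← hi0, hsh]
      choose k hk' using fun i => hk (sh i ν0) (hdeg i)
      have h1 := hLv' ν0
      rw [hzero ν0] at h1
      have h2 := residue a b ha hb hinj α (∑ j, v j * C (lam ν0 j)) hα0 (fun i => c i ν0 * k i) (by
        have h3 : ∑ i, GG a b i * (C (c i ν0) * ∑ j, v j * C (lam (sh i ν0) j)) =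
            α * ∑ i, GG a b i * C (c i ν0 * k i) := by
          rw [Finset.mul_sum]
          refine Finset.sum_congr rfl fun i _ => ?_
          rw [hk' i, C_mul]
          ring
        rw [h3] at h1
        linear_combination -h1) i0
      have h3 : k i0 = 0 := (mul_eq_zero.1 h2).resolve_left hc0
      have h4 := hk' i0
      rw [hi0, h3, C_0, zero_mul] at h4
      exact hμv h4
    · refine ih _ ?_ v' hv'R hv'0 rfl
      rw [← hn]
      refine ka_lt deg lam S v v' (deg μ) hμ1 μ hμS rfl hμv ?_ ?_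
      · rw [hLtop μ le_rfl, ← hα]
        ring
      · intro ν hν h
        rw [hLtop ν hν, h]
        simp

end Pool.Agent.SPD
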