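import Mathlib

set_option autoImplicit false

namespace Pool.Agent.SPD

open Polynomial

/- Linearly independent rows over a domain have a nonzero maximal minor. -/
theorem exists_minor {R : Type*} [CommRing R] [IsDomain R] {r s : ℕ} (F : Fin r → Fin s → R)
    (hF : LinearIndependent R F) :
    ∃ j : Fin r → Fin s, (Matrix.of fun k i => F k (j i)).det ≠ 0 := by
  classical
  let L := FractionRing R
  have hinj : Function.Injective (algebraMap R L) := IsFractionRing.injective R L
  let φ : (Fin s → R) →ₗ[R] (Fin s → L) := (Algebra.linearMap R L).compLeft (Fin s)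
  have hφ : LinearMap.ker φ = ⊥ := by
    rw [LinearMap.ker_eq_bot]
    intro a b hab
    funext i
    exact hinj (congrFun hab i)
  let A : Matrix (Fin r) (Fin s) L := Matrix.of fun k j => algebraMap R L (F k j)
  have h1 : LinearIndependent R (fun k => φ (F k)) := hF.map' φ hφ
  have h2 : LinearIndependent L (fun k => φ (F k)) :=
    (LinearIndependent.iff_fractionRing R L).1 h1
  have h3 : LinearIndependent L A.row := h2
  have h4 : A.rank = r := by
    rw [h3.rank_matrix, Fintype.card_fin]
  rw [Matrix.rank_eq_finrank_span_cols] at h4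
  obtain ⟨f, hf1, -, hf3⟩ := Submodule.exists_fun_fin_finrank_span_eq L (Set.range A.col)
  choose j hj using hf1
  have key : ∀ m : ℕ, (e : m = r) → ∀ (f : Fin m → Fin r → L), LinearIndependent L f →
      ∀ j : Fin m → Fin s, (∀ i, A.col (j i) = f i) →
      ∃ j' : Fin r → Fin s, LinearIndependent L (fun i => A.col (j' i)) := by
    intro m e
    subst e
    intro f hf j hj
    refine ⟨j, ?_⟩
    have : (fun i => A.col (j i)) = f := funext hj
    rw [this]
    exact hf
  obtain ⟨j', hj'⟩ := key _ h4 f hf3 j hj
  refine ⟨j', fun h0 => ?_⟩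
  let B : Matrix (Fin r) (Fin r) L := Matrix.of fun k i => A k (j' i)
  have h5 : LinearIndependent L B.col := hj'
  have h6 : IsUnit B := Matrix.linearIndependent_cols_iff_isUnit.1 h5
  have h7 : B.det ≠ 0 := ((Matrix.isUnit_iff_isUnit_det B).1 h6).ne_zero
  apply h7
  have h8 : B = (algebraMap R L).mapMatrix (Matrix.of fun k i => F k (j' i)) := by
    ext k i
    rfl
  rw [h8, ← RingHom.map_det, h0, map_zero]

end Pool.Agent.SPD
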