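import Pool.Agent.SPD.DSp

/-! The derivative space of a sum of products of powers of polynomials of degree at most one. -/

set_option autoImplicit false

namespace Pool.Agent.SPD

open MvPolynomial

variable {K : Type*} [Field K] {σ : Type*}

theorem pderiv_affine (i : σ) (l : MvPolynomial σ K) (hl : l.totalDegree ≤ 1) :
    ∃ c : K, pderiv i l = C c := by
  classical
  refine ⟨coeff 0 (pderiv i l), ?_⟩
  ext ν
  rw [coeff_C]
  split_ifs with h
  · rw [h]
  · rw [coeff_pderiv]
    have h0 : coeff (ν + Finsupp.single i 1) l = 0 := by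
      refine coeff_eq_zero_of_totalDegree_lt (lt_of_le_of_lt hl ?_)
      change 1 < Finsupp.degree (ν + Finsupp.single i 1)
      rw [map_add, Finsupp.degree_single]
      have : ν.degree ≠ 0 := by
        intro h'
        exact h ((Finsupp.degree_eq_zero_iff ν).1 h').symm
      omega
    rw [h0, zero_mul]

theorem pderiv_prod_finset {ι : Type*} [DecidableEq ι] (k : σ) (s : Finset ι)
    (g : ι → MvPolynomial σ K) :
    pderiv k (∏ j ∈ s, g j) = ∑ j ∈ s, (∏ j' ∈ s.erase j, g j') * pderiv k (g j) := by
  induction s using Finset.induction_on with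
  | empty => simp
  | insert a s ha ih =>
    rw [Finset.prod_insert ha, Finset.sum_insert ha, pderiv_mul, ih, Finset.erase_insert ha,
      Finset.mul_sum]
    rw [mul_comm (pderiv k (g a))]
    congr 1
    refine Finset.sum_congr rfl fun j hj => ?_
    have hja : j ≠ a := fun h => ha (h ▸ hj)
    rw [Finset.erase_insert_of_ne hja.symm, Finset.prod_insert (fun h => ha (Finset.mem_of_mem_erase h))]
    ring

/-- The products of powers `∏ j, l i j ^ a j` with `a j ≤ e i j`. -/
noncomputable def prodPow {r m : ℕ} (l : Fin r → Fin m → MvPolynomial σ K)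
    (e : Fin r → Fin m → ℕ) (p : Σ i : Fin r, (j : Fin m) → Fin (e i j + 1)) :
    MvPolynomial σ K :=
  ∏ j, l p.1 j ^ (p.2 j : ℕ)

theorem finrank_sum_prod [Finite σ] {r m : ℕ} (c : Fin r → K)
    (l : Fin r → Fin m → MvPolynomial σ K)
    (e : Fin r → Fin m → ℕ) (hl : ∀ i j, (l i j).totalDegree ≤ 1) :
    Module.finrank K (derivSpace (∑ i, C (c i) * ∏ j, l i j ^ e i j)) ≤
      ∑ i, ∏ j, (e i j + 1) := by
  classical
  set V : Submodule K (MvPolynomial σ K) := Submodule.span K (Set.range (prodPow l e)) with hV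
  have hgen : ∀ (i : Fin r) (a : Fin m → ℕ), (∀ j, a j ≤ e i j) → ∏ j, l i j ^ a j ∈ V := by
    intro i a ha
    exact Submodule.subset_span ⟨⟨i, fun j => ⟨a j, Nat.lt_succ_of_le (ha j)⟩⟩, rfl⟩
  have hclosed : ∀ g ∈ V, ∀ k, pderiv k g ∈ V := by
    intro g hg k
    refine Submodule.span_induction (p := fun g _ => pderiv k g ∈ V) ?_ ?_ ?_ ?_ hg
    · rintro _ ⟨⟨i, a⟩, rfl⟩
      unfold prodPow
      simp only
      rw [pderiv_prod_finset]
      refine Submodule.sum_mem _ fun j _ => ?_
      obtain ⟨d, hd⟩ := pderiv_affine k (l i j) (hl i j)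
      rw [pderiv_pow, hd]
      have : (∏ j' ∈ Finset.univ.erase j, l i j' ^ (a j' : ℕ)) * (((a j : ℕ) :
          MvPolynomial σ K) * (l i j ^ ((a j : ℕ) - 1)) * (C d : MvPolynomial σ K)) =
          (((a j : ℕ) : K) * d) • ∏ j', l i j' ^ (if j' = j then (a j : ℕ) - 1 else (a j' : ℕ)) := by
        rw [← Finset.mul_prod_erase Finset.univ _ (Finset.mem_univ j)]
        rw [if_pos rfl]
        rw [Finset.prod_congr rfl (g := fun j' => l i j' ^ (a j' : ℕ))
          (s₁ := Finset.univ.erase j) (s₂ := Finset.univ.erase j)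
          (f := fun j' => l i j' ^ (if j' = j then (a j : ℕ) - 1 else (a j' : ℕ)))
          (fun j' hj' => by rw [if_neg (Finset.ne_of_mem_erase hj')])]
        rw [MvPolynomial.smul_eq_C_mul, map_mul, map_natCast]
        ring
      rw [this]
      refine Submodule.smul_mem _ _ (hgen i _ fun j' => ?_)
      split_ifs with h
      · subst h
        exact le_trans (Nat.sub_le _ _) (Nat.lt_succ_iff.1 (a j').2)
      · exact Nat.lt_succ_iff.1 (a j').2
    · rw [map_zero]
      exact V.zero_mem
    · intro x y _ _ hx hy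
      rw [map_add]
      exact V.add_mem hx hy
    · intro c x _ hx
      rw [Derivation.map_smul]
      exact V.smul_mem _ hx
  have hf : ∑ i, C (c i) * ∏ j, l i j ^ e i j ∈ V := by
    refine Submodule.sum_mem _ fun i _ => ?_
    rw [MvPolynomial.C_mul']
    exact Submodule.smul_mem _ _ (hgen i (e i) fun _ => le_rfl)
  have hle := derivSpace_le _ V hf hclosed
  have hfin : FiniteDimensional K V := by
    rw [hV]
    exact FiniteDimensional.span_of_finite K (Set.finite_range _)
  calc Module.finrank K (derivSpace (∑ i, C (c i) * ∏ j, l i j ^ e i j))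
      ≤ Module.finrank K V := Submodule.finrank_mono hle
    _ ≤ Fintype.card (Σ i : Fin r, (j : Fin m) → Fin (e i j + 1)) := by
        rw [hV]
        exact finrank_range_le_card _
    _ = ∑ i, ∏ j, (e i j + 1) := by
        rw [Fintype.card_sigma]
        refine Finset.sum_congr rfl fun i _ => ?_
        rw [Fintype.card_pi]
        refine Finset.prod_congr rfl fun j _ => ?_
        rw [Fintype.card_fin]

end Pool.Agent.SPD
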