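import Pool.Agent.SPD.Final
import Pool.Agent.SPD.SumProd
import Pool.Agent.SPD.Border

/-! The class of polynomials with a small space of derivatives, with limits and with sums of products
of powers of affine forms. -/

set_option autoImplicit false

namespace Pool.Agent.SPD

open MvPolynomial

/-- `h` is a sum of terms `c_i ∏_j l_ij ^ e_ij` with `l_ij` of degree at most one and
`∑_i ∏_j (e_ij + 1) ≤ s`. -/
def AffineSum {L : Type*} [Field L] {n : ℕ} (s : ℕ) (h : MvPolynomial (Fin n) L) : Prop :=
  ∃ (r m : ℕ) (c : Fin r → L) (l : Fin r → Fin m → MvPolynomial (Fin n) L)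
    (e : Fin r → Fin m → ℕ), (∀ i j, (l i j).totalDegree ≤ 1) ∧
    h = ∑ i, C (c i) * ∏ j, l i j ^ e i j ∧ ∑ i, ∏ j, (e i j + 1) ≤ s

/-- The partial derivatives of all orders of `g` span a space of dimension at most `s`; or `g` is the
value at `ε = 0` of a polynomial `F` with coefficients in `K[ε]` which has this property over the
field `K(ε)`, or which over `K(ε)` is a sum of products of powers of affine forms of size at most
`s`. -/
def Small {K : Type*} [Field K] {n : ℕ} (s : ℕ) (g : MvPolynomial (Fin n) K) : Prop :=
  Module.finrank K (derivSpace g) ≤ s ∨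
    ∃ F : MvPolynomial (Fin n) (Polynomial K), map (Polynomial.evalRingHom 0) F = g ∧
      (Module.finrank (FractionRing (Polynomial K))
          (derivSpace (map (algebraMap (Polynomial K) (FractionRing (Polynomial K))) F)) ≤ s ∨
        AffineSum s (map (algebraMap (Polynomial K) (FractionRing (Polynomial K))) F))

theorem Small.finrank_le {K : Type*} [Field K] {n s : ℕ} {g : MvPolynomial (Fin n) K}
    (h : Small s g) : Module.finrank K (derivSpace g) ≤ s := by
  rcases h with h | ⟨F, rfl, h | ⟨r, m, c, l, e, hl, hF, hs⟩⟩
  · exact h
  · exact (finrank_border F).trans h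
  · refine (finrank_border F).trans ?_
    rw [hF]
    exact (finrank_sum_prod c l e hl).trans hs

end Pool.Agent.SPD
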