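import Pool.Agent.SPD.Defs

set_option autoImplicit false

namespace Pool.Agent.SPD

open Polynomial

variable {K : Type*} [Field K] [CharZero K]

private theorem wron_deg {α γ : K[X]} (hα : α ≠ 0) (hγ : γ ≠ 0)
    (h : α * derivative γ = derivative α * γ) : γ.natDegree = α.natDegree := by
  rcases Nat.eq_zero_or_pos γ.natDegree with hg | hg
  · have h1 : derivative γ = 0 := derivative_of_natDegree_zero hg
    rw [h1, mul_zero] at h
    have h2 : derivative α = 0 := (mul_eq_zero.1 h.symm).resolve_right hγ
    rw [hg, derivative_eq_zero.1 h2]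
  · rcases Nat.eq_zero_or_pos α.natDegree with ha | ha
    · have h1 : derivative α = 0 := derivative_of_natDegree_zero ha
      rw [h1, zero_mul] at h
      have h2 : derivative γ = 0 := (mul_eq_zero.1 h).resolve_left hα
      rw [ha, derivative_eq_zero.1 h2]
    · have h1 := congrArg (fun f => f.coeff (α.natDegree + (γ.natDegree - 1))) h
      have e : α.natDegree + (γ.natDegree - 1) = (α.natDegree - 1) + γ.natDegree := by omega
      have h2 : (α * derivative γ).coeff (α.natDegree + (γ.natDegree - 1)) =
          α.coeff α.natDegree * (derivative γ).coeff (γ.natDegree - 1) :=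
        coeff_mul_add_eq_of_natDegree_le le_rfl (natDegree_derivative_le γ)
      have h3 : (derivative α * γ).coeff ((α.natDegree - 1) + γ.natDegree) =
          (derivative α).coeff (α.natDegree - 1) * γ.coeff γ.natDegree :=
        coeff_mul_add_eq_of_natDegree_le (natDegree_derivative_le α) le_rfl
      have h4 : (α * derivative γ).coeff (α.natDegree + (γ.natDegree - 1)) =
          (derivative α * γ).coeff (α.natDegree + (γ.natDegree - 1)) := h1
      rw [h2, e, h3, coeff_derivative, coeff_derivative, Nat.sub_add_cancel hg, Nat.sub_add_cancel ha] at h4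
      have h5 : ((γ.natDegree - 1 : ℕ) : K) + 1 = (γ.natDegree : K) := by
        rw [← Nat.cast_succ, Nat.succ_eq_add_one, Nat.sub_add_cancel hg]
      have h6 : ((α.natDegree - 1 : ℕ) : K) + 1 = (α.natDegree : K) := by
        rw [← Nat.cast_succ, Nat.succ_eq_add_one, Nat.sub_add_cancel ha]
      rw [h5, h6] at h4
      have h7 : (α.coeff α.natDegree * γ.coeff γ.natDegree) * (γ.natDegree : K) =
          (α.coeff α.natDegree * γ.coeff γ.natDegree) * (α.natDegree : K) := by
        linear_combination h4
      have h8 : α.coeff α.natDegree * γ.coeff γ.natDegree ≠ 0 :=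
        mul_ne_zero (leadingCoeff_ne_zero.2 hα) (leadingCoeff_ne_zero.2 hγ)
      exact Nat.cast_injective (mul_left_cancel₀ h8 h7)

theorem wron_zero (α β : K[X]) (hα : α ≠ 0)
    (h : α * derivative β = derivative α * β) : ∃ c : K, β = C c * α := by
  rcases eq_or_ne β 0 with rfl | hβ
  · exact ⟨0, by rw [C_0, zero_mul]⟩
  have hd := wron_deg hα hβ h
  have hl : α.leadingCoeff ≠ 0 := leadingCoeff_ne_zero.2 hα
  refine ⟨β.leadingCoeff / α.leadingCoeff, ?_⟩
  by_contra hne
  have hγ : β - C (β.leadingCoeff / α.leadingCoeff) * α ≠ 0 := sub_ne_zero.2 hne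
  have h1 : α * derivative (β - C (β.leadingCoeff / α.leadingCoeff) * α) =
      derivative α * (β - C (β.leadingCoeff / α.leadingCoeff) * α) := by
    rw [derivative_sub, derivative_C_mul]
    linear_combination h
  have h2 := wron_deg hα hγ h1
  have h3 : (β - C (β.leadingCoeff / α.leadingCoeff) * α).coeff α.natDegree = 0 := by
    rw [coeff_sub, coeff_C_mul]
    have e1 : β.coeff α.natDegree = β.leadingCoeff := by
      rw [← hd]
      rfl
    have e2 : α.coeff α.natDegree = α.leadingCoeff := rfl
    rw [e1, e2, div_mul_cancel₀ _ hl, sub_self]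
  rw [← h2] at h3
  exact leadingCoeff_ne_zero.2 hγ h3

end Pool.Agent.SPD
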